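import Pool.Agent.Y382.MX.Stm

/-!
Project MX (helper382), job MX-LNC: trivial left normed commutators give the nilpotency class.
-/

set_option autoImplicit false

namespace Pool.Agent.Y921.MX

open Pool.Agent.Y382.MX

theorem lnc_congr {W : Type} [Group W] {a b : ℕ → W} {j : ℕ} (h : ∀ i ≤ j, a i = b i) :
    lnc a j = lnc b j := by
  induction j with
  | zero => exact h 0 le_rfl
  | succ j ih =>
    have h1 := ih fun i hi => h i (by omega)
    have h2 := h (j + 1) le_rfl
    simp only [lnc, h1, h2]

theorem t_LNC : S_LNC := by
  intro W _ c h
  rw [Subgroup.lowerCentralSeries_eq_bot_iff_upperCentralSeries_eq_top]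
  have key : ∀ j, j ≤ c → ∀ a : ℕ → W, lnc a (c - j) ∈ Subgroup.upperCentralSeries W j := by
    intro j
    induction j with
    | zero =>
      intro _ a
      rw [Nat.sub_zero, h a]
      exact Subgroup.one_mem _
    | succ j ih =>
      intro hj a
      rw [Subgroup.mem_upperCentralSeries_succ_iff]
      intro y
      have h1 := ih (by omega) (Function.update a (c - (j + 1) + 1) y)
      have h2 : c - j = c - (j + 1) + 1 := by omega
      rw [h2] at h1
      simp only [lnc, Function.update_self] at h1
      rw [lnc_congr (b := a)] at h1
      · exact h1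
      · intro i hi
        exact Function.update_of_ne (by omega) _ _
  rw [eq_top_iff]
  intro x _
  have h1 := key c le_rfl (fun _ => x)
  rw [Nat.sub_self] at h1
  exact h1

end Pool.Agent.Y921.MX
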